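import Pool.Agent.Lib.MP_d3ed34_co.Pow.Multi
import Pool.Agent.Lib.MP_d3ed34_co.Pow.Final

set_option autoImplicit false

namespace Pool.Agent.Results.MP_d3ed34_co.AlmostAll

/-- The odd `u ≤ N` for which a Hadamard matrix developed over the dicyclic group of order
`4 u ^ 2` exists number at most `C N ^ (1 - c)`. -/
theorem result :
    ∃ c C : ℝ, 0 < c ∧ ∀ N : ℕ,
      (Set.ncard {u : ℕ | u ≤ N ∧ Odd u ∧
        ∃ (_ : NeZero (u ^ 2)) (φ : QuaternionGroup (u ^ 2) → ℤ), (∀ g, φ g = 1 ∨ φ g = -1) ∧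
          (Matrix.of (fun g h : QuaternionGroup (u ^ 2) => φ (g * h))) *
            Matrix.transpose (Matrix.of (fun g h : QuaternionGroup (u ^ 2) => φ (g * h))) =
            (4 * (u : ℤ) ^ 2) •
              (1 : Matrix (QuaternionGroup (u ^ 2)) (QuaternionGroup (u ^ 2)) ℤ)} : ℝ)
        ≤ C * (N : ℝ) ^ (1 - c) := by
  refine Pool.Agent.Lib.MP_d3ed34_co.Dens.sparse_pow _ (fun h => absurd h.1 (by decide)) ?_
  rintro u ⟨hu, _, φ, h1, h2⟩ m d S h hS hW
  refine Pool.Agent.Lib.MP_d3ed34_co.Dens.criterion_multi hu h S hS hW φ h1 fun g g' => ?_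
  have := congrFun (congrFun h2 g) g'
  simp only [Matrix.mul_apply, Matrix.of_apply, Matrix.transpose_apply, Matrix.smul_apply,
    Matrix.one_apply, smul_eq_mul, mul_ite, mul_one, mul_zero] at this
  rw [this]
  push_cast
  rfl

end Pool.Agent.Results.MP_d3ed34_co.AlmostAll
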