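import Pool.Agent.Lib.MP_d3ed34_co.Arith

set_option autoImplicit false

namespace Pool.Agent.Results.MP_d3ed34_co.TwoPrimes

/-- For `u = p q` with distinct odd primes `p`, `q` there is no Hadamard matrix developed over
the dicyclic group of order `4 u ^ 2`. -/
theorem result :
    ∀ p q : ℕ, p.Prime → q.Prime → Odd p → Odd q → p ≠ q → ∀ [NeZero ((p * q) ^ 2)],
      ¬ ∃ φ : QuaternionGroup ((p * q) ^ 2) → ℤ,
        (∀ g, φ g = 1 ∨ φ g = -1) ∧
        (Matrix.of (fun g h : QuaternionGroup ((p * q) ^ 2) => φ (g * h))) *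
          Matrix.transpose (Matrix.of (fun g h : QuaternionGroup ((p * q) ^ 2) => φ (g * h))) =
          (4 * ((p : ℤ) * (q : ℤ)) ^ 2) •
            (1 : Matrix (QuaternionGroup ((p * q) ^ 2)) (QuaternionGroup ((p * q) ^ 2)) ℤ) := by
  rintro p q hp hq hp2 hq2 hpq _ ⟨φ, h1, h2⟩
  refine Pool.Agent.Lib.MP_d3ed34_co.main p q hp hq (by rintro rfl; exact absurd hp2 (by decide))
    (by rintro rfl; exact absurd hq2 (by decide)) hpq φ h1 fun g g' => ?_
  have := congrFun (congrFun h2 g) g'
  simp only [Matrix.mul_apply, Matrix.of_apply, Matrix.transpose_apply, Matrix.smul_apply,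
    Matrix.one_apply, smul_eq_mul, mul_ite, mul_one, mul_zero] at this
  rw [this]
  push_cast
  rfl

end Pool.Agent.Results.MP_d3ed34_co.TwoPrimes
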